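import Pool.Agent.H21.Guess

set_option autoImplicit false

namespace Pool.Agent.Results.MP_2c9be0_lc.NotStrong

open Pool.Agent.H21.Guess

theorem result : ∃ (S : Type) (_ : Semiring S) (A : Type) (_ : Finite A) (f : List A → S),
    IsWA f ∧ Guessable f ∧ ¬ StronglyGuessable f := main1

end Pool.Agent.Results.MP_2c9be0_lc.NotStrong
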